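import Pool.Agent.Q80.Proj.Basic

open MeasureTheory Set

namespace Pool.Agent.Results.MP_2d1483_gt.OnePositiveEigenvalue

/-- `M` is symmetric and has, counted with multiplicity, at most one positive eigenvalue. -/
def AtMostOnePosEig {m : Type*} [Fintype m] [DecidableEq m] (M : Matrix m m ℝ) : Prop :=
  ∃ h : M.IsHermitian, (Finset.univ.filter fun i => 0 < h.eigenvalues i).card ≤ 1

/-- The projection of `ℝ⁵` onto the coordinate plane of `e_i, e_j`. -/
def proj (i j : Fin 5) (x : EuclideanSpace ℝ (Fin 5)) : ℝ × ℝ := (x i, x j)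

/-- The areas of the coordinate-plane projections of some convex body are the entries of `q`
above the diagonal. -/
def Realizable (q : Matrix (Fin 5) (Fin 5) ℝ) : Prop :=
  ∃ A : ConvexBody (EuclideanSpace ℝ (Fin 5)),
    ∀ i j, i < j → volume (proj i j '' (A : Set (EuclideanSpace ℝ (Fin 5)))) =
      ENNReal.ofReal (q i j)

/-- The numbers `-7, -6, 0, 6, 7`. -/
def t : Fin 5 → ℝ := ![-7, -6, 0, 6, 7]

/-- The matrix of squared differences of the numbers `-7, -6, 0, 6, 7`. -/
def q : Matrix (Fin 5) (Fin 5) ℝ := fun i j => (t i - t j) ^ 2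

lemma t0 : t 0 = -7 := rfl
lemma t1 : t 1 = -6 := rfl
lemma t2 : t 2 = 0 := rfl
lemma t3 : t 3 = 6 := rfl
lemma t4 : t 4 = 7 := rfl

lemma form_eq {m : Type*} [Fintype m] (s : m → ℝ) (v : m → ℝ) (hv : ∑ i, v i = 0) :
    ∑ i, ∑ j, v i * ((s i - s j) ^ 2 * v j) = - 2 * (∑ i, s i * v i) ^ 2 := by
  have h : ∀ i j, v i * ((s i - s j) ^ 2 * v j) =
      (s i ^ 2 * v i) * v j + v i * (s j ^ 2 * v j) - 2 * ((s i * v i) * (s j * v j)) := by
    intro i j; ring
  simp_rw [h, Finset.sum_sub_distrib, Finset.sum_add_distrib, ← Finset.mul_sum, ← Finset.sum_mul,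
    hv]
  ring

lemma atMost {m : Type*} [Fintype m] [DecidableEq m] (s : m → ℝ) (M : Matrix m m ℝ)
    (hM : ∀ i j, M i j = (s i - s j) ^ 2) : AtMostOnePosEig M := by
  have hH : M.IsHermitian := by
    ext i j
    simp only [Matrix.conjTranspose_apply, hM, star_trivial]
    ring
  refine ⟨hH, ?_⟩
  by_contra hcon
  push Not at hcon
  obtain ⟨i, hi, j, hj, hij⟩ := Finset.one_lt_card.mp hcon
  simp only [Finset.mem_filter, Finset.mem_univ, true_and] at hi hj
  set v := hH.eigenvectorBasis i with hv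
  set w := hH.eigenvectorBasis j with hw
  have hMv : M.mulVec v = hH.eigenvalues i • (v : m → ℝ) := hH.mulVec_eigenvectorBasis i
  have hMw : M.mulVec w = hH.eigenvalues j • (w : m → ℝ) := hH.mulVec_eigenvectorBasis j
  have hvv : ∑ k, v k * v k = 1 := by
    have := hH.eigenvectorBasis.orthonormal.1 i
    rw [EuclideanSpace.norm_eq, Real.sqrt_eq_one] at this
    simpa [sq] using this
  have hww : ∑ k, w k * w k = 1 := by
    have := hH.eigenvectorBasis.orthonormal.1 j
    rw [EuclideanSpace.norm_eq, Real.sqrt_eq_one] at this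
    simpa [sq] using this
  have hvw : ∑ k, v k * w k = 0 := by
    have : inner ℝ (hH.eigenvectorBasis i) (hH.eigenvectorBasis j) = 0 :=
      hH.eigenvectorBasis.orthonormal.2 hij
    rw [PiLp.inner_apply] at this
    simpa [mul_comm] using this
  -- the form on a combination
  have key : ∀ α β : ℝ, ∑ a, (α * v a + β * w a) = 0 → α ^ 2 * hH.eigenvalues i +
      β ^ 2 * hH.eigenvalues j ≤ 0 := by
    intro α β h0
    have h1 := form_eq s (fun a => α * v a + β * w a) h0
    have h2 : ∑ a, ∑ b, (α * v a + β * w a) * ((s a - s b) ^ 2 * (α * v b + β * w b)) =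
        α ^ 2 * hH.eigenvalues i + β ^ 2 * hH.eigenvalues j := by
      have h3 : ∀ a, ∑ b, (s a - s b) ^ 2 * (α * v b + β * w b) =
          α * (hH.eigenvalues i * v a) + β * (hH.eigenvalues j * w a) := by
        intro a
        have e1 := congrFun hMv a
        have e2 := congrFun hMw a
        simp only [Matrix.mulVec, dotProduct, Pi.smul_apply, smul_eq_mul, hM] at e1 e2
        rw [← e1, ← e2, Finset.mul_sum, Finset.mul_sum, ← Finset.sum_add_distrib]
        exact Finset.sum_congr rfl fun b _ => by ring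
      calc ∑ a, ∑ b, (α * v a + β * w a) * ((s a - s b) ^ 2 * (α * v b + β * w b))
          = ∑ a, (α * v a + β * w a) * (α * (hH.eigenvalues i * v a) +
              β * (hH.eigenvalues j * w a)) := by
            refine Finset.sum_congr rfl fun a _ => ?_
            rw [← Finset.mul_sum, h3]
        _ = α ^ 2 * hH.eigenvalues i * (∑ a, v a * v a) +
            β ^ 2 * hH.eigenvalues j * (∑ a, w a * w a) +
            α * β * (hH.eigenvalues i + hH.eigenvalues j) * (∑ a, v a * w a) := by
            rw [Finset.mul_sum, Finset.mul_sum, Finset.mul_sum, ← Finset.sum_add_distrib,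
              ← Finset.sum_add_distrib]
            exact Finset.sum_congr rfl fun a _ => by ring
        _ = _ := by rw [hvv, hww, hvw]; ring
    rw [← h2, h1]
    nlinarith [sq_nonneg (∑ a, s a * (α * v a + β * w a))]
  by_cases hs : (∑ a, v a) = 0
  · have := key 1 0 (by simpa using hs)
    linarith
  · have h1 := key (∑ a, w a) (-(∑ a, v a)) (by
      rw [Finset.sum_add_distrib, ← Finset.mul_sum, ← Finset.mul_sum]; ring)
    have h2 : 0 < (∑ a, v a) ^ 2 := by positivity
    nlinarith [mul_nonneg (sq_nonneg (∑ a, w a)) hi.le, mul_pos h2 hj]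

open Pool.Agent.Q80.Proj

lemma ar_comm {E : Type*} [AddCommGroup E] [Module ℝ E] [TopologicalSpace E] {A : Set E}
    (hk : IsCompact A) (x y : E →L[ℝ] ℝ) : ar A x y = ar A y x := by
  unfold ar
  congr 1
  have h := (Measure.measurePreserving_swap (μ := (volume : Measure ℝ))
    (ν := (volume : Measure ℝ))).measure_preimage
    (isCompact_im hk x y).isClosed.measurableSet.nullMeasurableSet
  rw [Measure.volume_eq_prod, ← h]
  congr 1
  ext ⟨a, b⟩
  simp only [mem_image, Prod.mk.injEq, mem_preimage, Prod.swap_prod_mk]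
  constructor
  · rintro ⟨p, hp, h1, h2⟩
    exact ⟨p, hp, h2, h1⟩
  · rintro ⟨p, hp, h1, h2⟩
    exact ⟨p, hp, h2, h1⟩

theorem not_realizable : ¬ Realizable q := by
  rintro ⟨A, hA⟩
  set K : Set (EuclideanSpace ℝ (Fin 5)) := (A : Set (EuclideanSpace ℝ (Fin 5))) with hK
  have hc : Convex ℝ K := A.convex
  have hk : IsCompact K := A.isCompact
  have hne : K.Nonempty := A.nonempty
  let X : Fin 5 → (EuclideanSpace ℝ (Fin 5) →L[ℝ] ℝ) := fun i => EuclideanSpace.proj i
  have harea : ∀ i j, i < j → ar K (X i) (X j) = q i j := by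
    intro i j hij
    have h1 := hA i j hij
    have h2 : proj i j = fun p => (X i p, X j p) := rfl
    rw [h2] at h1
    rw [ar, h1, ENNReal.toReal_ofReal (show (0 : ℝ) ≤ q i j from sq_nonneg _)]
  -- extreme points of each coordinate
  have hmin : ∀ i, ∃ p ∈ K, ∀ r ∈ K, X i p ≤ X i r := fun i => by
    obtain ⟨p, hp, h⟩ := hk.exists_isMinOn hne (X i).continuous.continuousOn
    exact ⟨p, hp, fun r hr => h hr⟩
  have hmax : ∀ i, ∃ p ∈ K, ∀ r ∈ K, X i r ≤ X i p := fun i => by
    obtain ⟨p, hp, h⟩ := hk.exists_isMaxOn hne (X i).continuous.continuousOn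
    exact ⟨p, hp, fun r hr => h hr⟩
  choose B hB hBm using hmin
  choose T hT hTm using hmax
  set w : Fin 5 → ℝ := fun i => X i (T i) - X i (B i) with hw
  have hIcc : ∀ i, ∀ p ∈ K, X i p ∈ Icc (X i (B i)) (X i (T i)) :=
    fun i p hp => ⟨hBm i p hp, hTm i p hp⟩
  have hpos' : ∀ i j, 0 < ar K (X i) (X j) → X i (B i) < X i (T i) := by
    intro i j hij
    by_contra hcon
    push Not at hcon
    have hsub : ((fun p => (X i p, X j p)) '' K) ⊆ {X i (B i)} ×ˢ univ := by
      rintro _ ⟨p, hp, rfl⟩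
      refine ⟨?_, mem_univ _⟩
      have := hIcc i p hp
      exact le_antisymm (this.2.trans hcon) this.1
    have h0 : volume ((fun p => (X i p, X j p)) '' K) = 0 := by
      apply measure_mono_null hsub
      rw [Measure.volume_eq_prod, Measure.prod_prod, Real.volume_singleton, zero_mul]
    rw [ar, h0] at hij
    simp at hij
  have tt : ∀ x y z : Fin 5, X y (B y) < X y (T y) → w y * ar K (X x) (X z) ≤
      w x * ar K (X y) (X z) + 4 * w z * ar K (X x) (X y) := by
    intro x y z hy
    exact three_term hc hk (X x) (X y) (X z) (hIcc x) (hIcc z) (hB y) (hT y) rfl rfl hy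
  have a01 : ar K (X 0) (X 1) = 1 := by rw [harea 0 1 (by decide)]; norm_num [q, t0, t1, t2, t3, t4]
  have a02 : ar K (X 0) (X 2) = 49 := by rw [harea 0 2 (by decide)]; norm_num [q, t0, t1, t2, t3, t4]
  have a03 : ar K (X 0) (X 3) = 169 := by rw [harea 0 3 (by decide)]; norm_num [q, t0, t1, t2, t3, t4]
  have a12 : ar K (X 1) (X 2) = 36 := by rw [harea 1 2 (by decide)]; norm_num [q, t0, t1, t2, t3, t4]
  have a13 : ar K (X 1) (X 3) = 144 := by rw [harea 1 3 (by decide)]; norm_num [q, t0, t1, t2, t3, t4]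
  have a14 : ar K (X 1) (X 4) = 169 := by rw [harea 1 4 (by decide)]; norm_num [q, t0, t1, t2, t3, t4]
  have a23 : ar K (X 2) (X 3) = 36 := by rw [harea 2 3 (by decide)]; norm_num [q, t0, t1, t2, t3, t4]
  have a24 : ar K (X 2) (X 4) = 49 := by rw [harea 2 4 (by decide)]; norm_num [q, t0, t1, t2, t3, t4]
  have a34 : ar K (X 3) (X 4) = 1 := by rw [harea 3 4 (by decide)]; norm_num [q, t0, t1, t2, t3, t4]
  have cm := fun i j => ar_comm hk (X i) (X j)
  have p0 := hpos' 0 1 (by rw [a01]; norm_num)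
  have p1 := hpos' 1 2 (by rw [a12]; norm_num)
  have p2 := hpos' 2 3 (by rw [a23]; norm_num)
  have p3 := hpos' 3 4 (by rw [a34]; norm_num)
  have p4 := hpos' 4 3 (by rw [cm, a34]; norm_num)
  have i1 := tt 0 1 2 p1
  have i2 := tt 1 0 3 p0
  have i3 := tt 4 3 2 p3
  have i4 := tt 3 4 1 p4
  have i5 := tt 1 2 3 p2
  have i6 := tt 3 2 1 p2
  rw [a02, a12, a01] at i1
  rw [a13, a03, cm 1 0, a01] at i2
  rw [cm 4 2, a24, cm 3 2, a23, cm 4 3, a34] at i3
  rw [cm 3 1, a13, cm 4 1, a14, a34] at i4
  rw [a13, a23, a12] at i5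
  rw [cm 3 1, a13, cm 2 1, a12, cm 3 2, a23] at i6
  have hw1 : 0 < w 1 := by simp only [hw]; linarith
  have hw3 : 0 < w 3 := by simp only [hw]; linarith
  linarith

/-- There is a symmetric nonnegative `5 × 5` matrix `q` with zero diagonal (namely
`q i j = (t i - t j) ^ 2` with `t = (-7, -6, 0, 6, 7)`), all of whose `4 × 4` principal
submatrices have at most one positive eigenvalue, and which even has itself at most one positive
eigenvalue, but whose entries are not the areas of the coordinate-plane projections of a convex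
body in `ℝ⁵`. -/
theorem result :
    ∃ q : Matrix (Fin 5) (Fin 5) ℝ, q.IsSymm ∧ (∀ i, q i i = 0) ∧ (∀ i j, 0 ≤ q i j) ∧
      (∀ σ : Fin 4 ↪ Fin 5, AtMostOnePosEig (q.submatrix σ σ)) ∧ AtMostOnePosEig q ∧
      ¬ Realizable q := by
  refine ⟨q, ?_, ?_, ?_, ?_, ?_, not_realizable⟩
  · ext i j
    simp only [Matrix.transpose_apply, q]
    ring
  · intro i; simp [q]
  · intro i j; exact sq_nonneg _
  · intro σ
    exact atMost (fun i => t (σ i)) _ fun i j => rfl
  · exact atMost t _ fun i j => rfl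

end Pool.Agent.Results.MP_2d1483_gt.OnePositiveEigenvalue
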